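import Pool.Agent.Lib.MP_60829e_nt.ZV.Out
import Pool.Agent.Lib.MP_60829e_nt.ZV.RowsE

/-! # Four exponentials, and relations with arbitrary logarithms as coefficients, for the logarithms of
all conjugates of almost all algebraic integers, uniformly for families of spaces

`L` is the span over the algebraic numbers of `1` and all logarithms of algebraic numbers. Let `K` be a
number field. For an ideal `I` of the ring of integers, `Log I` is the set of the vectors `l` for which
there is a `β` which generates a power `I ^ m` (`m ≥ 1`) of `I`, such that `l σ` is a logarithm of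
`σ β` for every embedding `σ`. -/

open Module MvPolynomial NumberField

namespace Pool.Agent.Results.MP_60829e_nt.FourExponentials

/-- Let `E e` be `M` spaces of dimension at most `h` over the algebraic numbers. Almost all tuples of
ideals means: all but at most `ρ C M B * B ^ n` of the tuples of nonzero ideals of norm at most `B`
(`M ≤ B`), with a constant `C` which does not depend on `M`, the spaces or `B`.
(1) Almost all ideals `I` satisfy, for all `e`, all `l` in `Log I`, all integer vectors `c ≠ 0`, all nonzero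
`θ` in `E e` and all `t` at once, with `x = ∑ σ, c σ * l σ`: if `exp (t * θ)` and `exp (t * x)` are
algebraic, then `t` is rational (four exponentials); if `t * θ` and `t * x` are in `L`, then `t` is
algebraic (strong four exponentials).
(2) If `r` times the degree of `K` is less than `n`, then for almost all matrices `I` of ideals of size
`r * n`, all `e`, all `l i j` in `Log (I i j)` and all `y i j σ` in `q i j σ * l i j σ + E e`: for every
row `z` with entries in `E e + L` which is not a linear combination of the rows `y i · σ` over the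
algebraic numbers, `z` and these rows are linearly independent over the complex numbers.
(3) For almost all tuples `I`, all `e` and all `l i` in `Log (I i)`: let `y i σ` be in
`q i σ * l i σ + E e`, `A` a subspace of `E e` and `F` a polynomial in the variables `(i, σ)` of degree at most
`D` with coefficients in `E e + A * L` and `F y = 0`. Then `F = ∑ (X p - y p) * G p` with coefficients of
the `G p` in `A`. -/
theorem result (K : Type) [Field K] [NumberField K]
    (L : Submodule (algebraicClosure ℚ ℂ) ℂ)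
    (hL : L = Submodule.span (algebraicClosure ℚ ℂ) ({1} ∪ {z | IsAlgebraic ℚ (Complex.exp z)}))
    (Log : Ideal (𝓞 K) → Set ((K →+* ℂ) → ℂ))
    (hLog : ∀ I, Log I = {l | ∃ (m : ℕ) (β : 𝓞 K), 1 ≤ m ∧ Ideal.span {β} = I ^ m ∧
      ∀ σ, Complex.exp (l σ) = σ (β : K)})
    (ρ : ℕ → ℕ → ℕ → ℝ)
    (hρ : ∀ C M B, ρ C M B =
      C * (1 + Real.log (Real.log B / Real.log M)) ^ C * (Real.log M / Real.log B)) :
    (∀ h : ℕ, ∃ C : ℕ, ∀ M B : ℕ, 2 ≤ M → M ≤ B →
      ∀ E : Fin M → Submodule (algebraicClosure ℚ ℂ) ℂ,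
      (∀ e, FiniteDimensional (algebraicClosure ℚ ℂ) (E e)) →
      (∀ e, finrank (algebraicClosure ℚ ℂ) (E e) ≤ h) →
        ({I : Ideal (𝓞 K) | (I ≠ ⊥ ∧ Ideal.absNorm I ≤ B) ∧
          ∃ e, ∃ l ∈ Log I, ∃ c : (K →+* ℂ) → ℤ, c ≠ 0 ∧ ∃ θ ∈ E e, θ ≠ 0 ∧ ∃ t : ℂ,
            (IsAlgebraic ℚ (Complex.exp (t * θ)) ∧
              IsAlgebraic ℚ (Complex.exp (t * ∑ σ, c σ * l σ)) ∧ ¬ ∃ q : ℚ, (q : ℂ) = t) ∨
            (t * θ ∈ L ∧ t * ∑ σ, c σ * l σ ∈ L ∧ ¬ IsAlgebraic ℚ t)}.ncard : ℝ) ≤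
          ρ C M B * B) ∧
    (∀ r n h : ℕ, r * finrank ℚ K < n → ∃ C : ℕ, ∀ M B : ℕ, 2 ≤ M → M ≤ B →
      ∀ E : Fin M → Submodule (algebraicClosure ℚ ℂ) ℂ,
      (∀ e, FiniteDimensional (algebraicClosure ℚ ℂ) (E e)) →
      (∀ e, finrank (algebraicClosure ℚ ℂ) (E e) ≤ h) →
        ({I : Fin r → Fin n → Ideal (𝓞 K) | (∀ i j, I i j ≠ ⊥ ∧ Ideal.absNorm (I i j) ≤ B) ∧
          ∃ e, ∃ l y : Fin r → Fin n → (K →+* ℂ) → ℂ, (∀ i j, l i j ∈ Log (I i j)) ∧
            (∀ i j σ, ∃ q : algebraicClosure ℚ ℂ, q ≠ 0 ∧ y i j σ - q * l i j σ ∈ E e) ∧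
            ∃ z : Fin n → ℂ, (∀ j, z j ∈ E e ⊔ L) ∧
              ¬ LinearIndependent ℂ (fun (o : Option (Fin r × (K →+* ℂ))) (j : Fin n) =>
                o.elim (z j) fun p => y p.1 j p.2) ∧
              ¬ ∃ a : Fin r → (K →+* ℂ) → algebraicClosure ℚ ℂ,
                ∀ j, z j = ∑ i, ∑ σ, (a i σ : ℂ) * y i j σ}.ncard : ℝ) ≤
          ρ C M B * B ^ (r * n)) ∧
    ∀ n D h : ℕ, ∃ C : ℕ, ∀ M B : ℕ, 2 ≤ M → M ≤ B →
      ∀ E : Fin M → Submodule (algebraicClosure ℚ ℂ) ℂ,
      (∀ e, FiniteDimensional (algebraicClosure ℚ ℂ) (E e)) →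
      (∀ e, finrank (algebraicClosure ℚ ℂ) (E e) ≤ h) →
        ({I : Fin n → Ideal (𝓞 K) | (∀ i, I i ≠ ⊥ ∧ Ideal.absNorm (I i) ≤ B) ∧
          ∃ e, ∃ l y : Fin n → (K →+* ℂ) → ℂ, (∀ i, l i ∈ Log (I i)) ∧
            (∀ i σ, ∃ q : algebraicClosure ℚ ℂ, q ≠ 0 ∧ y i σ - q * l i σ ∈ E e) ∧
            ∃ A ≤ E e, ∃ F : MvPolynomial (Fin n × (K →+* ℂ)) ℂ, F.totalDegree ≤ D ∧
              (∀ m, F.coeff m ∈ E e ⊔ A * L) ∧ eval (fun p => y p.1 p.2) F = 0 ∧
              ¬ ∃ G : Fin n × (K →+* ℂ) → MvPolynomial (Fin n × (K →+* ℂ)) ℂ,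
                (∀ p m, (G p).coeff m ∈ A) ∧
                F = ∑ p, (X p - MvPolynomial.C (y p.1 p.2)) * G p}.ncard : ℝ) ≤
          ρ C M B * B ^ n := by
  obtain rfl : Log = fun I => {l | MP60829e.ZV.IsLog K I l} := funext hLog
  obtain rfl : ρ = MP60829e.ZV.rt := by
    funext C M B
    exact hρ C M B
  subst hL
  refine ⟨MP60829e.ZV.exponentials K, fun r n h hr => MP60829e.ZV.rowsE K ?_ h, fun n D h => ?_⟩
  · rw [NumberField.Embeddings.card K ℂ]
    exact hr
  obtain ⟨C, hC⟩ := MP60829e.ZV.ideals K n D h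
  refine ⟨C, fun M B hM hB E h1 h2 => le_trans (le_of_eq ?_) (hC M B hM hB E h1 h2)⟩
  congr 2
  ext I
  unfold MP60829e.ZV.GoodX
  simp only [Set.mem_ofPred_eq, not_forall, exists_prop]
  exact Iff.rfl

end Pool.Agent.Results.MP_60829e_nt.FourExponentials
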