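import Pool.Agent.Lib.MP_60829e_nt.QT.FinT

/-! # Tuples of given logarithms, rational functions, and products

Let `lam 0, …, lam (N - 1)` be ANY logarithms of algebraic numbers which are linearly independent
over the rational numbers. Dimensions are over the field of the algebraic numbers.

* (1) Let `W` be a space of complex numbers of dimension `w` over the algebraic numbers. For all but
  `w ^ 2 * (4 ^ (s + 1) - 1) / 3 * N ^ s` of the `s + 1`-tuples `y` of the `lam i`, no nonzero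
  polynomial of degree at most one in each variable, with coefficients in `W`, vanishes at `y`.
* (2) In particular `W` may be spanned by the values at `x` of `w` given functions, where `x` is an
  `m`-tuple of the `lam i`, too.
* (3) At most `2 * (2 * m * (log2 (m * D) + 3) * D + 1) ^ m` of the `lam i`, and at most `4 * D` if
  `m = 1`, are values at a given point of `ℂ ^ m` of rational functions of degree at most `D` over
  the algebraic numbers.
* (4) A space `W` of finite dimension, multiplied by the `lam i`: the dimension grows by at least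
  `d * (N - d)` for every `d ≤ N, dim W`.
* (5) The monomials of degree `k` in the `lam i` span a space of dimension at least
  `N + (k - 1) * (N ^ 2 / 4)`; those of degree at most `k`, a space of dimension at least
  `N + 1 + (k - 1) * (N ^ 2 / 4)`.
* (6) Two generic linear combinations satisfy no nonzero polynomial relation of degree less than
  `N ^ 2 / 4` over the algebraic numbers. -/

open MvPolynomial Module

namespace Pool.Agent.Results.MP_60829e_nt.HilbertFunction

theorem result (N : ℕ) (lam : Fin N → ℂ) (hN : 0 < N)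
    (halg : ∀ i, IsAlgebraic ℚ (Complex.exp (lam i))) (hli : LinearIndependent ℚ lam) :
    (∀ W : Submodule (algebraicClosure ℚ ℂ) ℂ, FiniteDimensional (algebraicClosure ℚ ℂ) W →
      ∀ (s : ℕ) (T : Finset (Fin (s + 1) → Fin N)),
        (∀ j ∈ T, ∃ P : MvPolynomial (Fin (s + 1)) ℂ, P ≠ 0 ∧ (∀ t, P.degreeOf t ≤ 1) ∧
          (∀ e, P.coeff e ∈ W) ∧ eval (fun t => lam (j t)) P = 0) →
        3 * T.card ≤ finrank (algebraicClosure ℚ ℂ) W ^ 2 * (4 ^ (s + 1) - 1) * N ^ s) ∧
    (∀ (m s w : ℕ) (f : Fin w → (Fin m → ℂ) → ℂ)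
      (T : Finset ((Fin m → Fin N) × (Fin (s + 1) → Fin N))),
        (∀ p ∈ T, ∃ P : MvPolynomial (Fin (s + 1)) ℂ, P ≠ 0 ∧ (∀ t, P.degreeOf t ≤ 1) ∧
          (∀ e, P.coeff e ∈ Submodule.span (algebraicClosure ℚ ℂ)
            (Set.range fun t => f t (fun i => lam (p.1 i)))) ∧
          eval (fun t => lam (p.2 t)) P = 0) →
        3 * T.card ≤ w ^ 2 * (4 ^ (s + 1) - 1) * N ^ (m + s)) ∧
    (∀ (m D : ℕ), 1 ≤ m → 1 ≤ D → ∀ (θ : Fin m → ℂ) (s : Finset (Fin N)),
      (∀ i ∈ s, ∃ A B : MvPolynomial (Fin m) (algebraicClosure ℚ ℂ), A.totalDegree ≤ D ∧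
        B.totalDegree ≤ D ∧ aeval θ B ≠ 0 ∧ aeval θ B * lam i = aeval θ A) →
      s.card ≤ 2 * (2 * m * (Nat.log 2 (m * D) + 3) * D + 1) ^ m ∧ (m = 1 → s.card ≤ 4 * D)) ∧
    (∀ W : Submodule (algebraicClosure ℚ ℂ) ℂ, FiniteDimensional (algebraicClosure ℚ ℂ) W →
      ∀ d ≤ N, d ≤ finrank (algebraicClosure ℚ ℂ) W →
        finrank (algebraicClosure ℚ ℂ) W + d * (N - d) ≤ finrank (algebraicClosure ℚ ℂ)
          (Submodule.span (algebraicClosure ℚ ℂ) {z : ℂ | ∃ i, ∃ w ∈ W, z = lam i * w})) ∧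
    (∀ k ≥ 1, N + (k - 1) * (N ^ 2 / 4) ≤ finrank (algebraicClosure ℚ ℂ)
      (Submodule.span (algebraicClosure ℚ ℂ)
        (Set.range fun a : {a : Fin N → ℕ // ∑ i, a i = k} => ∏ i, lam i ^ a.1 i))) ∧
    (∀ k ≥ 1, N + 1 + (k - 1) * (N ^ 2 / 4) ≤ finrank (algebraicClosure ℚ ℂ)
      (Submodule.span (algebraicClosure ℚ ℂ)
        (Set.range fun a : {a : Fin N → ℕ // ∑ i, a i ≤ k} => ∏ i, lam i ^ a.1 i))) ∧
    ∃ H : MvPolynomial (Fin N ⊕ Fin N) (algebraicClosure ℚ ℂ), H ≠ 0 ∧
      H.totalDegree ≤ (N ^ 2 / 4) ^ 3 / 3 ∧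
      ∀ x y : Fin N → algebraicClosure ℚ ℂ, eval (Sum.elim x y) H ≠ 0 →
        ∀ P : MvPolynomial (Fin 2) (algebraicClosure ℚ ℂ), P ≠ 0 → P.totalDegree < N ^ 2 / 4 →
          aeval ![∑ i, (x i : ℂ) * lam i, ∑ i, (y i : ℂ) * lam i] P ≠ 0 := by
  refine ⟨fun W hW s T hT => ?_, fun m s w f T hT => ?_, fun m D hm hD θ s h => ⟨?_, ?_⟩,
    fun W hW d hd hdW => ?_, fun m hm => ?_, fun m hm => ?_, ?_⟩
  · exact MP60829e.QT.tupW lam halg hli W hW _ le_rfl s T hT
  · exact MP60829e.QT.tupF lam halg hli m s w f T hT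
  · exact MP60829e.QT.ratioF lam halg hli hm hD θ s h
  · rintro rfl
    exact MP60829e.QT.ratio_oneF lam halg hli hD θ s h
  · exact MP60829e.HF.grow_plain hN lam halg hli W hW d hd hdW
  · exact MP60829e.HF.le_Mh hN lam halg hli hm
  · exact MP60829e.HF.le_Mi hN lam halg hli hm
  · exact MP60829e.HF.pairs_plain lam halg hli

end Pool.Agent.Results.MP_60829e_nt.HilbertFunction
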