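import Pool.Agent.Lib.MP_60829e_nt.GF.FinP

/-!
# Logarithms of primes and of the integers of short intervals

`Good d D θ l` (`θ : Fin k → ℂ`, `l : ι → ℂ`): every relation `P(θ, l) = 0`, `P` a polynomial of total degree `≤ D` over a
field `K ⊂ ℂ` with `[K : ℚ] ≤ d`, holds identically in `l`: `P(θ, y) = 0` for all `y`.
`GoodL d D θ b` (`b : ι → ℕ`): `Good d D θ l` for ALL choices of logarithms `l i` of `b i`.
-/

namespace Pool.Agent.Results.MP_60829e_nt.LogarithmsOfPrimes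
open MP60829e.GF
open scoped Classical

/-- `K = (c D d)^c`; (1) short intervals, (2) tuples of any set of integers `≤ B`, (3) shifts, (4) tuples of primes. -/
theorem result (n k : ℕ) (hn : 1 ≤ n) : ∃ (c : ℕ) (δ : ℝ), 1 ≤ c ∧ 0 < δ ∧
    ∀ D d : ℕ, 1 ≤ D → 1 ≤ d → ∀ θ : Fin k → ℂ,
      (∀ h x : ℕ, 1 ≤ h → (2 * h) ^ ((c * D * d) ^ c) ≤ x →
        ∃ E : Finset ℕ, E.card ≤ k + 1 ∧ ∀ A ⊆ Finset.Icc x (x + h) \ E, A.card ≤ n →
          Good d D θ (fun a : A => (Real.log (a : ℕ) : ℂ))) ∧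
      (∀ B : ℕ, 1 ≤ B → ∀ S ⊆ Finset.Icc 1 B,
        (((Fintype.piFinset (fun _ : Fin n => S)).filter (fun b => ¬ GoodL d D θ b)).card : ℝ)
          ≤ c * (S.card : ℝ) ^ (n - 1) * (B : ℝ) ^ (1 - 1 / (((c * D * d) ^ c : ℕ) : ℝ))) ∧
      (∀ B : ℕ, 1 ≤ B → ∀ t : Fin n → ℕ, Function.Injective t →
        (∀ i, (t i : ℝ) ≤ (B : ℝ) ^ (1 / (((c * D * d) ^ c : ℕ) : ℝ))) →
        (((Finset.Icc 1 B).filter (fun x => ¬ GoodL d D θ (fun i => x + t i))).card : ℝ)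
          ≤ c * (B : ℝ) ^ (1 - 1 / (((c * D * d) ^ c : ℕ) : ℝ))) ∧
      (∀ B : ℕ, c ≤ B → (D : ℝ) ≤ Real.log B ^ δ → (d : ℝ) ≤ Real.log B ^ δ →
        (((Fintype.piFinset (fun _ : Fin n => Nat.primesLE B)).filter
          (fun b => ¬ GoodL d D θ b)).card : ℝ)
          ≤ Real.exp (-√(Real.log B)) * ((Nat.primesLE B).card : ℝ) ^ n) :=
  main n k hn

end Pool.Agent.Results.MP_60829e_nt.LogarithmsOfPrimes
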