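import Pool.Agent.Lib.MP_60829e_nt.FM.FinY

/-! # Products with arbitrary logarithms

There are natural numbers `a 0, a 1, …` of bounded size with the following property: if `v` is ANY
family of logarithms of algebraic numbers such that the `log (a i)` and the `v c` together are
linearly independent over the rational numbers, then `1`, the `log (a i)`, the `v c`, the products
`log (a i) * log (a j)`, `i ≤ j`, and the products `log (a i) * v c` are linearly independent over
the algebraic numbers.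

More generally, `lam` is any sequence of logarithms of algebraic numbers which is linearly
independent over the rational numbers, and `u b` is a generic rational combination of `lam 0`, …,
`lam (j b - 1)`. -/

open MvPolynomial

namespace Pool.Agent.Results.MP_60829e_nt.ProductsWithLogarithms

/-- The numbers `u b` are linearly independent over the rational numbers, and for every family `v`
of logarithms of algebraic numbers such that `u` and `v` together are linearly independent over the
rational numbers, the numbers `1`, `u a`, `v c`, `u a * u b` (`a ≤ b`), `u a * v c` are linearly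
independent over the algebraic numbers. -/
def Simple (u : ℕ → ℂ) : Prop :=
  LinearIndependent ℚ u ∧
    ∀ (κ : Type) (v : κ → ℂ), (∀ c, IsAlgebraic ℚ (Complex.exp (v c))) →
      LinearIndependent ℚ (Sum.elim u v) →
      LinearIndependent (algebraicClosure ℚ ℂ)
        (Sum.elim (Sum.elim (fun _ : Unit => (1 : ℂ)) (Sum.elim u v))
          (Sum.elim (fun p : {p : ℕ × ℕ // p.1 ≤ p.2} => u p.1.1 * u p.1.2)
            (fun p : ℕ × κ => u p.1 * v p.2)))

/-- Let the rational rows `x b`, with `j b` entries, avoid a hypersurface `H b`, of degree at most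
`d b`, which depends on the previous rows. Then the numbers `u b = ∑ t, x b t * lam t` are linearly
independent over the rational numbers, and for every family `v` of logarithms of algebraic numbers
such that `u` and `v` together are linearly independent over the rational numbers, the following
numbers are linearly independent over the algebraic numbers: the values at `u` of the monomials in
`M` and of the products of a monomial in `M` and a variable, and the products of the numbers `v c`
with the values at `u` of the monomials in `M`. -/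
def Generic (lam : ℕ → ℂ) (M : Set (ℕ →₀ ℕ)) (j d : ℕ → ℕ) : Prop :=
  ∃ H : (b : ℕ) → (Fin b → ℕ → ℚ) → MvPolynomial (Fin (j b)) ℚ,
    (∀ b y, H b y ≠ 0 ∧ (H b y).totalDegree ≤ d b) ∧
    ∀ (x : ℕ → ℕ → ℚ) (u : ℕ → ℂ),
      (∀ b, eval (fun t : Fin (j b) => x b t) (H b fun i => x i) ≠ 0) →
      (∀ b, u b = ∑ t : Fin (j b), (x b t : ℂ) * lam t) →
      LinearIndependent ℚ u ∧
      ∀ (κ : Type) (v : κ → ℂ), (∀ c, IsAlgebraic ℚ (Complex.exp (v c))) →
        LinearIndependent ℚ (Sum.elim u v) →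
        LinearIndependent (algebraicClosure ℚ ℂ) (Sum.elim
          (fun a : {a : ℕ →₀ ℕ // a ∈ M ∨ ∃ m ∈ M, ∃ b, a = m + Finsupp.single b 1} =>
            a.1.prod fun i e => u i ^ e)
          (fun p : κ × M => v p.1 * p.2.1.prod fun i e => u i ^ e))

theorem generic_of {lam : ℕ → ℂ} (halg : ∀ i, IsAlgebraic ℚ (Complex.exp (lam i)))
    {M : Set (ℕ →₀ ℕ)} (h0 : (0 : ℕ →₀ ℕ) ∈ M) {j d : ℕ → ℕ}
    (h : ∃ H : (b : ℕ) → (Fin b → ℕ → ℚ) → MvPolynomial (Fin (j b)) ℚ,
      (∀ b y, H b y ≠ 0 ∧ (H b y).totalDegree ≤ d b) ∧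
      ∀ x : ℕ → ℕ → ℚ, (∀ b, eval (fun t : Fin (j b) => x b t) (H b fun i => x i) ≠ 0) →
        ∀ n, MP60829e.HD.Free (MP60829e.FM.MX M) n (fun b => ∑ t : Fin (j b), (x b t : ℂ) * lam t) ∧
          MP60829e.FM.GoodM M n (fun b => ∑ t : Fin (j b), (x b t : ℂ) * lam t)) :
    Generic lam M j d := by
  obtain ⟨H, hH0, hH⟩ := h
  refine ⟨H, hH0, fun x u hx hu => ?_⟩
  have hu' : u = fun b => ∑ t : Fin (j b), (x b t : ℂ) * lam t := funext hu
  subst hu'
  exact MP60829e.FM.fam (fun b => MP60829e.FM.exp_alg halg (x b)) h0 (hH x hx)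

theorem result :
    (∃ a : ℕ → ℕ, (∀ b, ∃ x : ℕ → ℕ, (∀ t, x t ≤ (5 * (b + 2) ^ 2 + 7) ^ 3) ∧
        a b = ∏ t ∈ Finset.range (5 * b + 10), Nat.nth Nat.Prime t ^ x t) ∧
      Simple fun b => Complex.log (a b)) ∧
    ∀ lam : ℕ → ℂ, (∀ t, IsAlgebraic ℚ (Complex.exp (lam t))) → LinearIndependent ℚ lam →
      (∃ u : ℕ → ℂ, (∀ b, ∃ x : ℕ → ℕ, (∀ t, x t ≤ (5 * (b + 2) ^ 2 + 7) ^ 3) ∧
          u b = ∑ t ∈ Finset.range (5 * b + 10), (x t : ℂ) * lam t) ∧ Simple u) ∧
      Generic lam {m | m.degree ≤ 1} (fun b => 5 * b + 10) (fun b => (5 * (b + 2) ^ 2 + 7) ^ 3) ∧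
      ∀ (M : Set (ℕ →₀ ℕ)) (N : ℕ → ℕ), (0 : ℕ →₀ ℕ) ∈ M → IsLowerSet M →
        (∀ b, {m | m ∈ M ∧ ∀ i ∈ m.support, i ≤ b}.encard = N b) →
        Generic lam M (fun b => (N b + 1) ^ 2 + (b + 2) * N b)
          (fun b => (N b + b + 2) ^ (6 * N b)) := by
  classical
  refine ⟨MP60829e.FM.simple_primes, fun lam halg hli => ?_⟩
  have hlam := MP60829e.FC.baker lam halg hli
  have hlog : ∀ i, lam i ∈ MP60829e.ST.Lsp := fun i => Submodule.subset_span (halg i)
  refine ⟨?_, ?_, fun M N h0 hM hN => ?_⟩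
  · obtain ⟨x, hx0, hx⟩ := MP60829e.FM.simple_nat halg hli
    exact ⟨_, fun b => ⟨x b, hx0 b, rfl⟩, hx _ fun b => rfl⟩
  · exact generic_of halg MP60829e.FM.one_mem_deg (MP60829e.FM.to_rat
      (G := fun u => ∀ n, MP60829e.HD.Free (MP60829e.FM.MX {a | a.degree ≤ 1}) n u ∧
        MP60829e.FM.GoodM {a | a.degree ≤ 1} n u) (MP60829e.FM.hFX hlam hlog))
  · have hfb : ∀ b, {m : ℕ →₀ ℕ | m ∈ M ∧ ∀ i ∈ m.support, i ≤ b}.Finite := fun b =>
      Set.finite_of_encard_eq_coe (hN b)
    have hfin : ∀ n, {a : ℕ →₀ ℕ | a ∈ M ∧ ∀ b ∈ a.support, b < n}.Finite := fun n =>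
      (hfb n).subset fun a ha => ⟨ha.1, fun i hi => (ha.2 i hi).le⟩
    have hcard : ∀ b, (MP60829e.HD.SW M (Finset.range (b + 1))).card = N b := by
      intro b
      have h3 : ((MP60829e.HD.SW M (Finset.range (b + 1)) : Finset (ℕ →₀ ℕ)) : Set (ℕ →₀ ℕ)) =
          {m : ℕ →₀ ℕ | m ∈ M ∧ ∀ i ∈ m.support, i ≤ b} := by
        ext a
        rw [Finset.mem_coe, MP60829e.HD.mem_SW hfin]
        refine and_congr_right fun _ => ?_
        exact ⟨fun h i hi => Nat.lt_succ_iff.1 (Finset.mem_range.1 (h hi)),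
          fun h i hi => Finset.mem_range.2 (Nat.lt_succ_of_le (h i hi))⟩
      have h4 := hN b
      rw [← h3, Set.encard_coe_eq_coe_finsetCard] at h4
      exact_mod_cast h4
    have h5 := generic_of halg h0 (MP60829e.FM.to_rat
      (G := fun u => ∀ n, MP60829e.HD.Free (MP60829e.FM.MX M) n u ∧ MP60829e.FM.GoodM M n u)
        (MP60829e.FM.hMX hlam hlog h0 hM hfin N hcard))
    have h6 : (fun b => (N b + 1) ^ 2 + (b + 2) * N b) =
        fun b => (N b + 1) * (N b + 1) + (b + 2) * N b := by
      funext b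
      rw [pow_two]
    rw [h6]
    exact h5

end Pool.Agent.Results.MP_60829e_nt.ProductsWithLogarithms
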